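import Mathlib
import Pool.Agent.E8helper49.PC.Stm
import Pool.Agent.H437R2.Man.MWWeak
import Pool.Agent.Y355.G.Tr

/-!
# Project PC, FG: the Mordell-Weil theorem for `y² + D y = x³` over number fields (helper89)
-/

set_option autoImplicit false

namespace Pool.Agent.E8helper89.PC

open WeierstrassCurve Polynomial
open Pool.Agent.E8helper49.PC (crv S_FG)

theorem fg_of_inj {A B : Type} [AddCommGroup A] [AddCommGroup B] (φ : A →+ B)
    (h : Function.Injective φ) (hB : AddGroup.FG B) : AddGroup.FG A := by
  have : Module.Finite ℤ B := Module.Finite.iff_addGroup_fg.mpr hB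
  exact Module.Finite.iff_addGroup_fg.mp (Module.Finite.of_injective φ.toIntLinearMap h)

theorem fg_congr {F : Type} [Field F] [DecidableEq F] {W W' : WeierstrassCurve F} (h : W = W')
    (hfg : AddGroup.FG W.toAffine.Point) : AddGroup.FG W'.toAffine.Point := by
  subst h; exact hfg

/-- the short curve -/
def CV {F : Type} [Field F] (a b : F) : WeierstrassCurve F := ⟨0, 0, 0, a, b⟩

theorem CV_map {K F : Type} [Field K] [Field F] [Algebra K F] (a b : K) :
    (CV a b).map (algebraMap K F) = CV (algebraMap K F a) (algebraMap K F b) := by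
  unfold CV
  ext <;> simp

theorem map_cubic {K L : Type} [Field K] [Field L] (φ : K →+* L) (a b : K) :
    (X ^ 3 + C a * X + C b).map φ = X ^ 3 + C (φ a) * X + C (φ b) := by
  simp

/-- a number field containing three roots of the cubic -/
theorem exists_roots (K : Type) [Field K] [NumberField K] (a b : K) :
    ∃ (L : Type) (_ : Field L) (_ : NumberField L) (_ : Algebra K L) (r₁ r₂ r₃ : L),
    r₁ + r₂ + r₃ = 0 ∧ r₁ * r₂ + r₁ * r₃ + r₂ * r₃ = algebraMap K L a ∧
      -(r₁ * r₂ * r₃) = algebraMap K L b := by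
  classical
  set f : K[X] := X ^ 3 + C a * X + C b with hf
  have hmon : f.Monic := by
    rw [hf]; monicity!
  have hdeg : f.natDegree = 3 := by
    rw [hf]; compute_degree!
  set g : (SplittingField f)[X] := f.map (algebraMap K (SplittingField f)) with hg
  have hs : g.Splits := SplittingField.splits f
  have hg2 : g = X ^ 3 + C (algebraMap K (SplittingField f) a) * X +
      C (algebraMap K (SplittingField f) b) :=
    map_cubic (algebraMap K (SplittingField f)) a b
  have hgm : g.Monic := hmon.map _
  have hgd : g.natDegree = 3 := by rw [hg, natDegree_map, hdeg]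
  have hcard : g.roots.card = 3 := by
    have := hs.natDegree_eq_card_roots
    rw [hgd] at this
    exact this.symm
  obtain ⟨r₁, r₂, r₃, hr⟩ := Multiset.card_eq_three.1 hcard
  have hprod : g = (X - C r₁) * ((X - C r₂) * (X - C r₃)) := by
    have h1 := hs.eq_prod_roots
    rw [hr, hgm.leadingCoeff] at h1
    rw [h1]
    simp
  have : NumberField (SplittingField f) := NumberField.of_module_finite K (SplittingField f)
  have hev : ∀ t : SplittingField f, t ^ 3 + algebraMap K (SplittingField f) a * t +
      algebraMap K (SplittingField f) b = (t - r₁) * ((t - r₂) * (t - r₃)) := by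
    intro t
    have h1 : g.eval t = t ^ 3 + algebraMap K (SplittingField f) a * t +
      algebraMap K (SplittingField f) b := by
      rw [hg2]
      simp
    rw [← h1, hprod]
    simp
  have h0 := hev 0
  have h1 := hev 1
  have h2 := hev (-1)
  have h20 : (2 : SplittingField f) ≠ 0 := two_ne_zero
  have e1 : r₁ + r₂ + r₃ = 0 := by
    have : 2 * (r₁ + r₂ + r₃) = 0 := by linear_combination h1 + h2 - 2 * h0
    exact (mul_eq_zero.1 this).resolve_left h20
  refine ⟨SplittingField f, inferInstance, inferInstance, inferInstance, r₁, r₂, r₃, e1, ?_, ?_⟩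
  · linear_combination -h1 + h0 + e1
  · linear_combination -h0

/-- Mordell-Weil for short curves over number fields -/
theorem fg_short (K : Type) [Field K] [NumberField K] [DecidableEq K] (a b : K)
    (hDK0 : (4 * a ^ 3 + 27 * b ^ 2) ≠ 0) : AddGroup.FG (CV a b).toAffine.Point := by
  obtain ⟨L, hL, hN, hA, r₁, r₂, r₃, h1, h2, h3⟩ := exists_roots K a b
  let _ : DecidableEq L := Classical.decEq L
  have hDK : (4 * (algebraMap K L a) ^ 3 + 27 * (algebraMap K L b) ^ 2) ≠ 0 := by
    intro h
    apply hDK0
    apply (algebraMap K L).injective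
    rw [map_zero, ← h, map_add, map_mul, map_mul, map_pow, map_pow, map_ofNat, map_ofNat]
  have hr3 : r₃ = -(r₁ + r₂) := by linear_combination h1
  have key : 4 * (algebraMap K L a) ^ 3 + 27 * (algebraMap K L b) ^ 2 =
      -((r₁ - r₂) * (r₁ - r₃) * (r₂ - r₃)) ^ 2 := by
    rw [← h2, ← h3, hr3]; ring
  rw [key] at hDK
  have d12 : r₁ ≠ r₂ := by rintro rfl; apply hDK; ring
  have d13 : r₁ ≠ r₃ := by rintro rfl; apply hDK; ring
  have d23 : r₂ ≠ r₃ := by rintro rfl; apply hDK; ring
  have hfgK := Pool.Agent.H437R2.Man.MW.pt_fg (K := L) (e1 := -r₁) (e2 := -r₂) (e3 := -r₃)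
    (fun h => d12 (neg_injective h)) (fun h => d13 (neg_injective h))
    (fun h => d23 (neg_injective h))
  have hcrv : Pool.Agent.H437R2.Man.MW.crv (-r₁) (-r₂) (-r₃) =
      (CV a b).map (algebraMap K L) := by
    rw [CV_map]
    unfold Pool.Agent.H437R2.Man.MW.crv CV
    ext
    · rfl
    · show -r₁ + -r₂ + -r₃ = 0
      linear_combination -h1
    · rfl
    · show -r₁ * -r₂ + -r₁ * -r₃ + -r₂ * -r₃ = algebraMap K L a
      linear_combination h2
    · show -r₁ * -r₂ * -r₃ = algebraMap K L b
      linear_combination h3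
  have hfgK' := fg_congr hcrv hfgK
  have hinj := Affine.Point.map_injective (W' := (CV a b).toAffine) (S := K) (F := K) (K := L)
    (Algebra.ofId K L)
  have hfgQ := fg_of_inj _ hinj hfgK'
  refine fg_congr ?_ hfgQ
  show (CV a b).map (algebraMap K K) = CV a b
  rw [CV_map]
  rfl

/-- **FG** -/
theorem t_FG : S_FG := by
  intro K _ _ D hD
  classical
  have hD' : (D : K) ≠ 0 := Nat.cast_ne_zero.2 hD
  have hsh : Pool.Agent.Y355.G.IsSh (crv D K).toAffine (CV (0 : K) (16 * (D : K) ^ 2)).toAffine := by
    refine ⟨rfl, ?_, rfl, ?_, ?_, two_ne_zero⟩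
    · simp [CV, crv, WeierstrassCurve.toAffine]
    · simp [CV, crv, WeierstrassCurve.toAffine]
    · simp [CV, crv, WeierstrassCurve.toAffine]
  have h0 : (4 * (0 : K) ^ 3 + 27 * (16 * (D : K) ^ 2) ^ 2) ≠ 0 := by
    have : (4 * (0 : K) ^ 3 + 27 * (16 * (D : K) ^ 2) ^ 2) = 6912 * (D : K) ^ 4 := by ring
    rw [this]
    exact mul_ne_zero (by norm_num) (pow_ne_zero 4 hD')
  have h1 := fg_short K 0 (16 * (D : K) ^ 2) h0
  have h2 : AddGroup.FG (crv D K).toAffine.Point :=
    fg_of_inj ({ toFun := Pool.Agent.Y355.G.tr hsh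
                 map_zero' := rfl
                 map_add' := fun P Q => Pool.Agent.Y355.G.tr_add hsh P Q } :
      (crv D K).toAffine.Point →+ (CV (0 : K) (16 * (D : K) ^ 2)).toAffine.Point)
      (fun P Q h => Pool.Agent.Y355.G.tr_inj hsh h) h1
  exact Module.Finite.iff_addGroup_fg.mpr h2

end Pool.Agent.E8helper89.PC
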